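import Pool.Agent.Y262.NU.All0
import Pool.Agent.Y304.NU.Sel

/-!
# Project NU: assembly

The choice of the test function (`StSel`) is by helper304.
-/

set_option autoImplicit false

noncomputable section

namespace Pool.Agent.Y262.NU

theorem tSel : StSel := Pool.Agent.Y304.NU.sel tSmd tPsi

theorem concl : Concl := finalNU tDev tSel

end Pool.Agent.Y262.NU
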