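import Pool.Agent.Y262.NU.Final
import Pool.Agent.Y15.NU.Fme
import Pool.Agent.Y925.NU.Top
import Pool.Agent.Y941.NU.Bot
import Pool.Agent.Y322.NU.VarOne
import Pool.Agent.Y431.NU.Var2
import Pool.Agent.Y865.NU.Abs1
import Pool.Agent.Y455.NU.Abs2
import Pool.Agent.Y726.NU.Forms
import Pool.Agent.Y914.NU.SMD
import Pool.Agent.Y67.NU.Psi
import Pool.Agent.Y177.NU.Dev

/-!
# Project NU: assembly, first part

The proofs of the parts are by helper15 (equivalent forms), helper925 and helper941 (perturbation of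
a cluster of eigenvalues), helper322 and helper431 (variation of the eigenvalues), helper865 and
helper455 (closedness of the bounds), helper726 (forms), helper914 (density), helper67 (conformal
factor) and helper177 (contradiction argument).
-/

set_option autoImplicit false

noncomputable section

namespace Pool.Agent.Y262.NU

theorem tFmE : StFmE := Pool.Agent.Y15.NU.fmE

theorem tTop : StTop := Pool.Agent.Y925.NU.top

theorem tBot : StBot := Pool.Agent.Y941.NU.bot

theorem tVar1 : StVar1 := Pool.Agent.Y322.NU.var1 Pool.Agent.Y262.QE.tSp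
  Pool.Agent.Y592.QE.mm Pool.Agent.Y592.QE.mon Pool.Agent.Y726.QE.der

theorem tVar2 : StVar2 := Pool.Agent.Y431.NU.var2 tFmE Pool.Agent.Y592.QE.mon tVar1

theorem tAbs1 : StAbs1 := Pool.Agent.Y865.NU.abs1 Pool.Agent.Y262.QE.tSp
  Pool.Agent.Y592.QE.mm Pool.Agent.Y592.QE.mon tTop tVar1

theorem tAbs2 : StAbs2 := Pool.Agent.Y455.NU.abs2 Pool.Agent.Y262.QE.tSp
  Pool.Agent.Y592.QE.mm Pool.Agent.Y592.QE.mon tBot tVar2

theorem tForms : StForms := Pool.Agent.Y726.NU.Forms.forms Pool.Agent.Y469.QE.mul tFmE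

theorem tSmd : StSmd := Pool.Agent.Y914.NU.smd

theorem tPsi : StPsi := Pool.Agent.Y67.NU.psi

theorem tDev : StDev := Pool.Agent.Y177.NU.dev tForms tAbs1 tAbs2

end Pool.Agent.Y262.NU
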