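import Pool.Agent.Y262.NU.Stm

/-!
# Project NU: no uniform equidistribution in negative curvature (two more statements)
-/

set_option autoImplicit false

open Set Filter Topology MeasureTheory
open scoped ContDiff ComplexConjugate Real

noncomputable section

namespace Pool.Agent.Y262.NU

open Pool.Agent.Y262.QE Pool.Agent.Y262.EG Pool.Agent.Y262.EX

/-- a sequence of eigenvectors which is not equidistributed gives eigenvectors for the perturbed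
metrics which are not equidistributed -/
def StDev : Prop :=
  ∀ (M : Type) [MetricSpace M] [CompactSpace M] [MeasurableSpace M] [BorelSpace M] (μ : Measure M)
    [IsFiniteMeasure μ] (w f ψ : M → ℝ) (H : Type) [NormedAddCommGroup H]
    [InnerProductSpace ℝ H] [CompleteSpace H] (i : H →L[ℝ] Lp ℝ 2 μ)
    (a b0 : H →L[ℝ] H →L[ℝ] ℝ), Continuous w → (∀ x, 0 < w x) → Continuous f → (∀ x, 0 ≤ f x) →
    Continuous ψ → (∀ x, 0 ≤ ψ x) → (∀ u v, b0 u v = ∫ x, w x * (i u x * i v x) ∂μ) → Fm a b0 →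
    ∀ (u : ℕ → H) (lam : ℕ → ℝ), Tendsto lam atTop atTop →
    (∀ j, ∫ x, w x * (i (u j) x) ^ 2 ∂μ = 1) →
    (∀ j v, a (u j) v = lam j * ∫ x, w x * (i (u j) x * i v x) ∂μ) →
    (¬ Tendsto (fun j => ∫ x, f x * (w x * (i (u j) x) ^ 2) ∂μ) atTop
      (𝓝 ((∫ x, f x * w x ∂μ) / ∫ x, w x ∂μ))) →
    ∃ c : ℝ, 0 < c ∧ ∀ ε : ℝ, 0 < ε → ∃ (t τ lam' : ℝ) (v : H), 0 < t ∧ t < ε ∧ 0 < τ ∧ τ < ε ∧
      1 / ε < lam' ∧
      (∫ x, Real.exp (t * f x + τ * ψ x) * w x * (i v x) ^ 2 ∂μ = 1) ∧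
      (∀ v' : H, a v v' =
        lam' * ∫ x, Real.exp (t * f x + τ * ψ x) * w x * (i v x * i v' x) ∂μ) ∧
      c ≤ |(∫ x, f x * (Real.exp (t * f x + τ * ψ x) * w x * (i v x) ^ 2) ∂μ) -
        (∫ x, f x * (Real.exp (t * f x + τ * ψ x) * w x) ∂μ) /
          ∫ x, Real.exp (t * f x + τ * ψ x) * w x ∂μ|

/-- choice of the test function -/
def StSel : Prop :=
  ∀ (M P : Type) [MetricSpace M] [CompactSpace M] [MetricSpace P] [CompactSpace P]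
    [MeasurableSpace M] [BorelSpace M] (Ω : Set ℂ) (φ : ℂ → ℝ) (pr : ℂ → M) (q : Y → P)
    (L δ δ' κ C : ℝ) (g : ℝ → ℝ) (σ : M → M) (μ : Measure M) [IsFiniteMeasure μ] (w : M → ℝ),
    IsUT Ω φ pr q → Cls Ω φ pr L δ δ' κ C g → Rfl Ω φ pr σ → MeasurePreserving σ μ μ →
    Continuous σ → (∀ x, σ (σ x) = x) → Continuous w → (∀ x, 0 < w x) → (∀ x, w (σ x) = w x) →
    ∀ U : ℕ → M → ℝ, (∀ j, MemLp (U j) 2 μ) → (∀ j, ∀ᵐ x ∂μ, U j (σ x) = - U j x) →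
    (∀ j, ∫ x, w x * (U j x) ^ 2 ∂μ = 1) →
    (¬ ∀ f : M → ℝ, Continuous f → Tendsto (fun j => ∫ x, f x * (w x * (U j x) ^ 2) ∂μ) atTop
      (𝓝 ((∫ x, f x * w x ∂μ) / ∫ x, w x ∂μ))) →
    ∃ (f ψ : M → ℝ) (ε : ℝ), 0 < ε ∧ Continuous f ∧ (∀ x, 0 ≤ f x) ∧ (∀ x, f (σ x) = f x) ∧
      ContDiffOn ℝ ∞ (fun z => f (pr z)) Ω ∧ Continuous ψ ∧ (∀ x, 0 ≤ ψ x) ∧
      (∀ x, ψ (σ x) = ψ x) ∧ ContDiffOn ℝ ∞ (fun z => ψ (pr z)) Ω ∧
      (∀ t τ : ℝ, 0 ≤ t → t < ε → 0 < τ → τ < ε → ∀ z ∈ Ω,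
        curv (fun z => φ z + t * f (pr z) + τ * ψ (pr z)) z < 0) ∧
      ¬ Tendsto (fun j => ∫ x, f x * (w x * (U j x) ^ 2) ∂μ) atTop
        (𝓝 ((∫ x, f x * w x ∂μ) / ∫ x, w x ∂μ))

end Pool.Agent.Y262.NU
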