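import Pool.Agent.Y262.EL.All
import Pool.Agent.Y262.NU.Stm2

/-!
# Project NU: the final theorem
-/

set_option autoImplicit false

open Set Filter Topology MeasureTheory
open scoped ContDiff ComplexConjugate Real

noncomputable section

namespace Pool.Agent.Y262.NU

open Pool.Agent.Y262.EG Pool.Agent.Y262.EX Pool.Agent.Y262.EL

/-- There is no uniform equidistribution of the eigenfunctions of surfaces of negative curvature. -/
def Concl : Prop :=
  ∃ (M P : Type) (_ : MetricSpace M) (_ : CompactSpace M) (_ : ConnectedSpace M)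
    (_ : MeasurableSpace M) (_ : BorelSpace M) (_ : MetricSpace P) (_ : CompactSpace P)
    (Ω : Set ℂ) (φ : ℂ → ℝ) (pr : ℂ → M) (q : Y → P) (f ψ : M → ℝ) (c : ℝ),
    IsUT Ω φ pr q ∧ (∀ z ∈ Ω, curv φ z ≤ 0) ∧ Continuous f ∧ Continuous ψ ∧
    ContDiffOn ℝ ∞ (fun z => f (pr z)) Ω ∧ ContDiffOn ℝ ∞ (fun z => ψ (pr z)) Ω ∧ 0 < c ∧
    ∀ ε : ℝ, 0 < ε → ∃ (t τ lam : ℝ) (μ : Measure M) (u : M → ℝ), 0 < t ∧ t < ε ∧ 0 < τ ∧
      τ < ε ∧ 1 / ε < lam ∧ IsUT Ω (fun z => φ z + t * f (pr z) + τ * ψ (pr z)) pr q ∧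
      (∀ z ∈ Ω, curv (fun z => φ z + t * f (pr z) + τ * ψ (pr z)) z < 0) ∧
      IsArea Ω (fun z => φ z + t * f (pr z) + τ * ψ (pr z)) pr μ ∧
      IsEf Ω (fun z => φ z + t * f (pr z) + τ * ψ (pr z)) pr lam u ∧ ∫ x, (u x) ^ 2 ∂μ = 1 ∧
      c ≤ |∫ x, f x * (u x) ^ 2 ∂μ - (∫ x, f x ∂μ) / μ.real univ|

open Pool.Agent.Y262.QE in
theorem finalNU (hDev : StDev) (hSel : StSel) : Concl := by
  obtain ⟨g, c1, C, hP⟩ := tProf
  have hA : Act Gq Om ac := tAct
  obtain ⟨hI, hconj⟩ := tPhi2 g c1 C hP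
  obtain ⟨M, iM, cM, pr, hpr⟩ := Pool.Agent.Y338.EX.qM Pool.Agent.Y749.EX.top Gq Om ac hA
  obtain ⟨P, iP, cP, q, hq⟩ := Pool.Agent.Y848.EX.qP Pool.Agent.Y749.EX.top Gq Om ac hA
    (fun γ z hz => (hI.2 γ z hz).1)
  let _ : MeasurableSpace M := borel M
  have _ : BorelSpace M := ⟨rfl⟩
  have hUT : IsUT Om (phi g c1) pr q :=
    Pool.Agent.Y145.EX.qU Gq Om ac (phi g c1) M P pr q hA hI hpr hq
  obtain ⟨C', hC⟩ := tClsE g c1 C hP M P pr q hpr hUT
  obtain ⟨σ, hσ⟩ := Pool.Agent.Y658.EX.sigEx Gq M Om ac (phi g c1) pr hpr tConj.1 hconj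
    (fun γ => tConj.2 γ)
  obtain ⟨δ'', h, hC2, hhc, hh0, hhσ, hhs, hhz, hhne⟩ :=
    Pool.Agent.Y838.EX.hex M P Om (phi g c1) pr q _ _ _ _ _ g σ hUT hC hσ
  obtain ⟨μ, hμ⟩ :=
    Pool.Agent.Y80.EX.areaEx Pool.Agent.Y749.EX.etale M P Om (phi g c1) pr q hUT
  obtain ⟨D, Φ, hS, hComp, hCyl, hΦ⟩ :=
    tData M P Om (phi g c1) pr q μ _ _ _ _ _ g σ hUT hC2 hμ hσ
  have hz : ∀ z ∈ Strip L0, h (Φ z) = 0 := fun z hz => by
    rw [hΦ z hz]
    refine hhz z ⟨?_, ?_⟩
    · have := hC2.posδ; have := hC2.ltδ; have := hz.1; linarith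
    · have := hC2.posδ; have := hC2.ltδ; have := hz.2; linarith
  obtain ⟨hfin, hpos⟩ := tFin M μ D hS
  haveI := hfin
  obtain ⟨i, a, p, hCy, hi, ha⟩ := tPack M μ D hS _ Φ σ hCyl h hhc hz
  have hint0 : 0 < ∫ x, h x ∂μ := by
    have hint : Integrable h μ :=
      hhc.integrable_of_hasCompactSupport (HasCompactSupport.of_compactSpace h)
    rw [integral_pos_iff_support_of_nonneg hh0 hint]
    exact hpos _ hhc.isOpen_support (by obtain ⟨x, hx⟩ := hhne; exact ⟨x, hx⟩)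
  have hcs : CompleteSpace (HS D μ σ) :=
    (Submodule.isClosed_topologicalClosure _).completeSpace_coe
  have hmain := tCore M μ h _ (HS D μ σ) i a p hCyl.pos hhc hh0 hint0 hCy
  obtain ⟨s0, hs0, hfam⟩ := tFam M P Om (phi g c1) pr q _ _ _ _ _ g hUT hC2 h hhs hhz
  have hex : ∃ s : ℝ, |s| < s0 ∧ ∃ (u : ℕ → HS D μ σ) (lam : ℕ → ℝ), Tendsto lam atTop atTop ∧
      (∀ j, ∫ x, Real.exp (s * h x) * (i (u j) x) ^ 2 ∂μ = 1 ∧
        ∀ v, a (u j) v = lam j * ∫ x, Real.exp (s * h x) * (i (u j) x * i v x) ∂μ) ∧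
      ¬ ∀ f : M → ℝ, Continuous f →
        Tendsto (fun j => ∫ x, f x * (Real.exp (s * h x) * (i (u j) x) ^ 2) ∂μ) atTop
          (𝓝 ((∫ x, f x * Real.exp (s * h x) ∂μ) / ∫ x, Real.exp (s * h x) ∂μ)) := by
    by_contra hcon
    have hnull : volume {s : ℝ | |s| < s0} = 0 := by
      refine measure_mono_null ?_ hmain
      intro s hs hgood
      exact hcon ⟨s, hs, hgood⟩
    have hpos : 0 < volume {s : ℝ | |s| < s0} := by
      refine IsOpen.measure_pos volume ?_ ⟨0, by simpa using hs0⟩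
      exact isOpen_lt continuous_abs continuous_const
    exact absurd hnull hpos.ne'
  obtain ⟨s, hs, u, lam, hlam, hu, hnot⟩ := hex
  obtain ⟨hUTs1, hComps⟩ := tUTs M P Om (phi g c1) pr q hUT h hhs s
  obtain ⟨C2, hCs⟩ := hfam s hs
  have hσs : Rfl Om (fun z => phi g c1 z + s / 2 * h (pr z)) pr σ := by
    refine ⟨hσ.maps, fun z hz => ?_, hσ.rfl'⟩
    have h1 := hσ.inv z hz
    have h2 := hhσ (pr z)
    rw [hσ.rfl' z hz] at h2
    simp only [h1, h2]
  set w : M → ℝ := fun x => Real.exp (s * h x) with hw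
  have hwc : Continuous w := Real.continuous_exp.comp (continuous_const.mul hhc)
  have hwp : ∀ x, 0 < w x := fun x => Real.exp_pos _
  have hwσ : ∀ x, w (σ x) = w x := fun x => by simp only [hw, hhσ]
  obtain ⟨b, -, -, hb, -, hbF, -⟩ := tBs M μ h _ (HS D μ σ) i a p hCyl.pos hhc hh0 hCy
  have hDen := (tDen M μ D hS _ Φ σ hCyl).2
  obtain ⟨f, ψ, ε0, hε0, hfc, hf0, hfσ, hfs, hψc, hψ0, hψσ, hψs, hneg, hnotf⟩ :=
    hSel M P Om (fun z => phi g c1 z + s / 2 * h (pr z)) pr q _ _ _ _ _ g σ μ w hUTs1 hCs hσs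
      hCyl.mp hCyl.cont hCyl.inv hwc hwp hwσ (fun j => (i (u j) : M → ℝ)) (fun j => Lp.memLp _)
      (fun j => by
        have h1 := (hDen (u j).1 (u j).2).1
        rw [hi]
        exact h1) (fun j => (hu j).1) hnot
  obtain ⟨c, hc, hdev⟩ := hDev M μ w f ψ (HS D μ σ) i a (b s) hwc hwp hfc hf0 hψc hψ0 (hb s)
    (hbF s) u lam hlam (fun j => (hu j).1) (fun j => (hu j).2) hnotf
  have hne : Nonempty M := by
    obtain ⟨z, hz⟩ := hA.ne
    exact ⟨pr z⟩
  have hconn : ConnectedSpace M := { toPreconnectedSpace := ⟨hpr.conn⟩, toNonempty := hne }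
  refine ⟨M, P, iM, cM, hconn, inferInstance, inferInstance, iP, cP, Om,
    fun z => phi g c1 z + s / 2 * h (pr z), pr, q, f, ψ, c, hUTs1, hCs.neg, hfc, hψc, hfs, hψs,
    hc, fun ε hε => ?_⟩
  have hε' : 0 < min ε ε0 := lt_min hε hε0
  obtain ⟨t, τ, lam', v, ht, htε, hτ, hτε, hlam', hnorm, heig, hd⟩ := hdev (min ε ε0) hε'
  have hle1 := min_le_left ε ε0
  have hle2 := min_le_right ε ε0
  -- the conformal factor
  set h' : M → ℝ := fun x => s * h x + t * f x + τ * ψ x with hh'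
  have hh'c : Continuous h' :=
    ((continuous_const.mul hhc).add (continuous_const.mul hfc)).add (continuous_const.mul hψc)
  have hh's : ContDiffOn ℝ ∞ (fun z => h' (pr z)) Om :=
    ((contDiffOn_const.mul hhs).add (contDiffOn_const.mul hfs)).add (contDiffOn_const.mul hψs)
  have hfun : (fun z => phi g c1 z + 1 / 2 * h' (pr z)) =
      fun z => phi g c1 z + s / 2 * h (pr z) + t / 2 * f (pr z) + τ / 2 * ψ (pr z) := by
    funext z
    simp only [hh']
    ring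
  obtain ⟨hUT1, hComp1⟩ := tUTs M P Om (phi g c1) pr q hUT h' hh's 1
  have hAr1 := (tCVM M P Om (phi g c1) pr q μ hUT hμ).2.2.2 h' hh'c hh's 1
  rw [hfun] at hUT1 hAr1
  have hW : (fun x => Real.exp (1 * h' x)) =
      fun x => Real.exp (t * f x + τ * ψ x) * w x := by
    funext x
    simp only [hh', hw]
    rw [← Real.exp_add]
    congr 1
    ring
  have hComp2 := hComp1 D hComp
  rw [hfun, hW] at hComp2
  rw [hW] at hAr1
  set W : M → ℝ := fun x => Real.exp (t * f x + τ * ψ x) * w x with hWd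
  have hWc : Continuous W :=
    (Real.continuous_exp.comp ((continuous_const.mul hfc).add (continuous_const.mul hψc))).mul hwc
  have hWp : ∀ x, 0 < W x := fun x => mul_pos (Real.exp_pos _) (hwp x)
  have hWσ : ∀ x, W (σ x) = W x := fun x => by simp only [hWd, hfσ, hψσ, hwσ]
  have hSW := (tConf M μ D hS W hWc hWp).1
  have hEigW : (D.conf W).IsEig (wm μ W) lam' (v.1.fst : M → ℝ) := by
    refine tEig M μ D hS _ Φ σ hCyl W hWc hWp hWσ lam' v.1 v.2 fun v' hv' => ?_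
    have h2 := heig ⟨v', hv'⟩
    rw [ha, hi, hi] at h2
    exact h2
  obtain ⟨V, hV1, hV2, hV3⟩ :=
    tEll M P Om _ pr q (D.conf W) (wm μ W) hUT1 hSW hComp2 hAr1 lam' _ hEigW
  have hi2 : ∀ x, 0 ≤ W x := fun x => (hWp x).le
  refine ⟨t / 2, τ / 2, lam', wm μ W, V, by positivity, ?_, by positivity, ?_, ?_, hUT1, ?_, hAr1,
    ⟨hV2, hV3⟩, ?_, ?_⟩
  · linarith
  · linarith
  · refine lt_of_le_of_lt ?_ hlam'
    exact one_div_le_one_div_of_le hε' hle1
  · exact hneg (t / 2) (τ / 2) (by positivity) (by linarith) (by positivity) (by linarith)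
  · rw [← hnorm]
    have h1 : ∫ x, (V x) ^ 2 ∂(wm μ W) = ∫ x, ((v.1.fst : M → ℝ) x) ^ 2 ∂(wm μ W) := by
      refine integral_congr_ae ?_
      filter_upwards [hV1] with x hx
      rw [hx]
    rw [h1, integral_wm μ W hWc.measurable hi2, hi]
  · have h1 : ∫ x, f x * (V x) ^ 2 ∂(wm μ W) = ∫ x, f x * (W x * (i v x) ^ 2) ∂μ := by
      have h2 : ∫ x, f x * (V x) ^ 2 ∂(wm μ W) =
          ∫ x, f x * ((v.1.fst : M → ℝ) x) ^ 2 ∂(wm μ W) := by
        refine integral_congr_ae ?_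
        filter_upwards [hV1] with x hx
        rw [hx]
      rw [h2, integral_wm μ W hWc.measurable hi2, hi]
      refine integral_congr_ae (Eventually.of_forall fun x => ?_)
      simp only
      ring
    have h3 : ∫ x, f x ∂(wm μ W) = ∫ x, f x * W x ∂μ := by
      rw [integral_wm μ W hWc.measurable hi2]
      refine integral_congr_ae (Eventually.of_forall fun x => ?_)
      simp only
      ring
    have h4 : (wm μ W).real univ = ∫ x, W x ∂μ := by
      have h5 : (wm μ W).real univ = ∫ x, (1 : ℝ) ∂(wm μ W) := by simp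
      rw [h5, integral_wm μ W hWc.measurable hi2]
      simp only [mul_one]
    rw [h1, h3, h4]
    exact hd

end Pool.Agent.Y262.NU
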