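import Pool.Agent.Y262.EX.Stm
import Pool.Agent.Y262.QE.Stm

/-!
# Project NU: no uniform equidistribution in negative curvature (statements)
-/

set_option autoImplicit false

open Set Filter Topology MeasureTheory
open scoped ContDiff ComplexConjugate Real

noncomputable section

namespace Pool.Agent.Y262.NU

open Pool.Agent.Y262.QE Pool.Agent.Y262.EG Pool.Agent.Y262.EX

/-- equivalent forms -/
def StFmE : Prop :=
  ∀ (H : Type) [NormedAddCommGroup H] [InnerProductSpace ℝ H] (a b b' : H →L[ℝ] H →L[ℝ] ℝ),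
    Fm a b → ∀ c C : ℝ, 0 < c → (∀ u v, b' u v = b' v u) → (∀ v, c * b v v ≤ b' v v) →
    (∀ v, b' v v ≤ C * b v v) → Fm a b'

/-- the largest eigenvalue of a cluster and one eigenvector -/
def StTop : Prop :=
  ∀ (H : Type) [NormedAddCommGroup H] [InnerProductSpace ℝ H] (a b b' : H →L[ℝ] H →L[ℝ] ℝ),
    Fm a b → Fm a b' → ∀ (e : ℕ → H) (E : ℕ → ℝ), Eg a b e E → ∀ (u : H) (j : ℕ) (η θ : ℝ),
    b u u = 1 → (∀ v, a u v = E j * b u v) → 0 < E j → E j < E (j + 1) → 0 < η → 0 < θ →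
    (∀ v, b v v ≤ b' v v) → (∀ v, b' v v ≤ (1 + η) * b v v) →
    (∀ v, b u v = 0 → (b' u v) ^ 2 ≤ η ^ 2 * b v v) →
    E j * (1 + η + η ^ 2 / θ) ≤ E (j + 1) → E j ≤ Ev a b' j * (b' u u + θ)

/-- the smallest eigenvalue of a cluster and one eigenvector -/
def StBot : Prop :=
  ∀ (H : Type) [NormedAddCommGroup H] [InnerProductSpace ℝ H] (a b b' : H →L[ℝ] H →L[ℝ] ℝ),
    Fm a b → Fm a b' → ∀ (e : ℕ → H) (E : ℕ → ℝ), Eg a b e E → ∀ (u : H) (j : ℕ) (η θ : ℝ),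
    b u u = 1 → (∀ v, a u v = E j * b u v) → 0 < E j → (∀ i, i < j → E i < E j) → 0 < η →
    0 < θ → θ < 1 → (∀ v, b v v ≤ b' v v) →
    (∀ v, b u v = 0 → (b' u v) ^ 2 ≤ η ^ 2 * b v v) →
    (∀ i, i < j → E i * b' u u ≤ E j * (1 - η ^ 2 / θ)) → Ev a b' j * (b' u u - θ) ≤ E j

/-- a family of forms with the derivative `k` -/
structure Fly {H : Type} [NormedAddCommGroup H] [InnerProductSpace ℝ H] (a : H →L[ℝ] H →L[ℝ] ℝ)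
    (b k : ℝ → H →L[ℝ] H →L[ℝ] ℝ) (K : ℝ) : Prop where
  fm : ∀ t, Fm a (b t)
  sk : ∀ t u v, k t u v = k t v u
  kb : ∀ t v, 0 ≤ k t v v ∧ k t v v ≤ K * b t v v
  up : ∀ t δ v, 0 ≤ δ → b t v v + δ * k t v v ≤ b (t + δ) v v
  ub : ∀ t δ v, 0 ≤ δ → b (t + δ) v v ≤ Real.exp (K * δ) * b t v v
  dn : ∀ t δ v, 0 ≤ δ →
    b (t + δ) v v + δ * (K * b (t + δ) v v - k (t + δ) v v) ≤ Real.exp (K * δ) * b t v v

/-- eigenvalues decrease at least with the rate `m` if all eigenvectors satisfy `m b ≤ k` -/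
def StVar1 : Prop :=
  ∀ (H : Type) [NormedAddCommGroup H] [InnerProductSpace ℝ H] [CompleteSpace H]
    (a : H →L[ℝ] H →L[ℝ] ℝ) (b k : ℝ → H →L[ℝ] H →L[ℝ] ℝ) (K : ℝ), Fly a b k K →
    ∀ (α β m : ℝ) (j : ℕ), α ≤ β → 0 ≤ m →
    (∀ t ∈ Ioo α β, ∀ v, (∀ w, a v w = Ev a (b t) j * b t v w) → m * b t v v ≤ k t v v) →
    Ev a (b β) j ≤ Real.exp (-(m * (β - α))) * Ev a (b α) j

/-- eigenvalues decrease at most with the rate `m` if all eigenvectors satisfy `k ≤ m b` -/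
def StVar2 : Prop :=
  ∀ (H : Type) [NormedAddCommGroup H] [InnerProductSpace ℝ H] [CompleteSpace H]
    (a : H →L[ℝ] H →L[ℝ] ℝ) (b k : ℝ → H →L[ℝ] H →L[ℝ] ℝ) (K : ℝ), Fly a b k K →
    ∀ (α β m : ℝ) (j : ℕ), α ≤ β → m ≤ K →
    (∀ t ∈ Ioo α β, ∀ v, (∀ w, a v w = Ev a (b t) j * b t v w) → k t v v ≤ m * b t v v) →
    Ev a (b α) j ≤ Real.exp (m * (β - α)) * Ev a (b β) j

/-- a family of forms with two parameters -/
structure Fly2 {H : Type} [NormedAddCommGroup H] [InnerProductSpace ℝ H] (a : H →L[ℝ] H →L[ℝ] ℝ)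
    (b k : ℝ → ℝ → H →L[ℝ] H →L[ℝ] ℝ) (K : ℝ) : Prop where
  one : 1 ≤ K
  fly : ∀ τ, Fly a (fun t => b t τ) (fun t => k t τ) K
  tau : ∀ t τ v, 0 ≤ τ → b t 0 v v ≤ b t τ v v ∧ b t τ v v ≤ Real.exp (K * τ) * b t 0 v v
  sec : ∀ t v, 0 ≤ t → t ≤ 1 → b t 0 v v ≤ b 0 0 v v + t * k 0 0 v v + K * t ^ 2 * b 0 0 v v
  off : ∀ t u v, 0 ≤ t → t ≤ 1 → b 0 0 u v = 0 →
    (b t 0 u v) ^ 2 ≤ (K * t) ^ 2 * (b 0 0 u u * b 0 0 v v)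

/-- lower bounds for `k` on the eigenvectors are closed -/
def StAbs1 : Prop :=
  ∀ (H : Type) [NormedAddCommGroup H] [InnerProductSpace ℝ H] [CompleteSpace H]
    (a : H →L[ℝ] H →L[ℝ] ℝ) (b k : ℝ → ℝ → H →L[ℝ] H →L[ℝ] ℝ) (K : ℝ), Fly2 a b k K →
    ∀ (m lo ε : ℝ), 0 ≤ m → 0 ≤ lo → 0 < ε →
    (∀ t ∈ Ioo 0 ε, ∀ τ ∈ Ioo 0 ε, ∀ (lam : ℝ) (v : H), lo < lam →
      (∀ w, a v w = lam * b t τ v w) → m * b t τ v v ≤ k t τ v v) →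
    ∀ (lam : ℝ) (u : H), lo < lam → (∀ w, a u w = lam * b 0 0 u w) →
      m * b 0 0 u u ≤ k 0 0 u u

/-- upper bounds for `k` on the eigenvectors are closed -/
def StAbs2 : Prop :=
  ∀ (H : Type) [NormedAddCommGroup H] [InnerProductSpace ℝ H] [CompleteSpace H]
    (a : H →L[ℝ] H →L[ℝ] ℝ) (b k : ℝ → ℝ → H →L[ℝ] H →L[ℝ] ℝ) (K : ℝ), Fly2 a b k K →
    ∀ (m lo ε : ℝ), 0 ≤ m → m ≤ K → 0 ≤ lo → 0 < ε →
    (∀ t ∈ Ioo 0 ε, ∀ τ ∈ Ioo 0 ε, ∀ (lam : ℝ) (v : H), lo < lam →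
      (∀ w, a v w = lam * b t τ v w) → k t τ v v ≤ m * b t τ v v) →
    ∀ (lam : ℝ) (u : H), lo < lam → (∀ w, a u w = lam * b 0 0 u w) →
      k 0 0 u u ≤ m * b 0 0 u u

/-- the forms of the conformal metrics -/
def StForms : Prop :=
  ∀ (M : Type) [MetricSpace M] [CompactSpace M] [MeasurableSpace M] [BorelSpace M] (μ : Measure M)
    [IsFiniteMeasure μ] (w f ψ : M → ℝ) (H : Type) [NormedAddCommGroup H]
    [InnerProductSpace ℝ H] (i : H →L[ℝ] Lp ℝ 2 μ) (a b0 : H →L[ℝ] H →L[ℝ] ℝ) (K0 : ℝ),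
    Continuous w → (∀ x, 0 < w x) → Continuous f → (∀ x, 0 ≤ f x ∧ f x ≤ K0) → Continuous ψ →
    (∀ x, 0 ≤ ψ x ∧ ψ x ≤ K0) → 1 ≤ K0 → (∀ u v, b0 u v = ∫ x, w x * (i u x * i v x) ∂μ) →
    Fm a b0 → ∀ K : ℝ, K0 ^ 2 * Real.exp K0 ≤ K → ∃ b k : ℝ → ℝ → H →L[ℝ] H →L[ℝ] ℝ,
      (∀ t τ u v, b t τ u v =
        ∫ x, Real.exp (t * f x + τ * ψ x) * w x * (i u x * i v x) ∂μ) ∧
      (∀ t τ u v, k t τ u v =
        ∫ x, f x * (Real.exp (t * f x + τ * ψ x) * w x) * (i u x * i v x) ∂μ) ∧ Fly2 a b k K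

/-- density of smooth functions on the surface -/
def StSmd : Prop :=
  ∀ (M P : Type) [MetricSpace M] [CompactSpace M] [MetricSpace P] [CompactSpace P] (Ω : Set ℂ)
    (φ : ℂ → ℝ) (pr : ℂ → M) (q : Y → P), IsUT Ω φ pr q → ∀ f : M → ℝ, Continuous f →
    ∀ ε : ℝ, 0 < ε → ∃ F : M → ℝ, Continuous F ∧ ContDiffOn ℝ ∞ (fun z => F (pr z)) Ω ∧
      ∀ x, |F x - f x| < ε

/-- a function which is strictly subharmonic near the flat cylinder, and the curvature of the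
perturbed metrics -/
def StPsi : Prop :=
  ∀ (M P : Type) [MetricSpace M] [CompactSpace M] [MetricSpace P] [CompactSpace P] (Ω : Set ℂ)
    (φ : ℂ → ℝ) (pr : ℂ → M) (q : Y → P) (L δ δ' κ C : ℝ) (g : ℝ → ℝ) (σ : M → M), IsUT Ω φ pr q →
    Cls Ω φ pr L δ δ' κ C g → Rfl Ω φ pr σ →
    ∃ ψ : M → ℝ, Continuous ψ ∧ (∀ x, 0 ≤ ψ x) ∧ (∀ x, ψ (σ x) = ψ x) ∧
      ContDiffOn ℝ ∞ (fun z => ψ (pr z)) Ω ∧
      ∀ F : M → ℝ, Continuous F → ContDiffOn ℝ ∞ (fun z => F (pr z)) Ω → ∃ N ε : ℝ, 1 ≤ N ∧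
        0 < ε ∧ ∀ t τ : ℝ, 0 ≤ t → t < ε → 0 < τ → τ < ε → ∀ z ∈ Ω,
        curv (fun z => φ z + t * (F (pr z) + N * ψ (pr z)) + τ * ψ (pr z)) z < 0

end Pool.Agent.Y262.NU
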